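import Mathlib

/-!
# A finite set of conditional equations deriving all the formulas `φ_p`

We give four conditional equations, valid in all common meadows, whose consequences include the
conditional equations `φ_p`, `(0/2) (0/3) = (0/2) (0/p) → 0/3 = 0/p`, for all primes `p ≥ 5`:

* `0 · 1 = 0`, `0 · (x + 1) = 0 · x`, `((x + x) + 1) + 1 = (x + 1) + (x + 1)`, and
* `x = (u + u) + 1 ∧ 0 · u = 0 ∧ y = (v + v) + 1 ∧ 0 · v = 0 ∧ (0/2) (0/x) = (0/2) (0/y) → 0/x = 0/y`.

The last one is valid: `u` and `v` are elements of the field, and if the characteristic is two then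
`x = y = 1`, and otherwise `0/2 = 0`.
-/

set_option autoImplicit false

universe u v

namespace Pool.Agent.Results.MP_f888fa_lc.FiniteAxioms

/-- A `Σ`-algebra: an algebra on `X` in the signature `(0, 1, ⊥, +, -, ·, ÷)`. -/
structure Alg (X : Type u) where
  zero : X
  one : X
  bot : X
  add : X → X → X
  neg : X → X
  mul : X → X → X
  div : X → X → X

/-- `Σ`-terms over the variables `0, 1, 2, ...`. -/
inductive Term : Type
  | var (i : ℕ) : Term
  | zero : Term
  | one : Term
  | bot : Term
  | add (s t : Term) : Term
  | neg (s : Term) : Term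
  | mul (s t : Term) : Term
  | div (s t : Term) : Term

/-- The value of a term in a `Σ`-algebra under an assignment. -/
def Term.eval {X : Type u} (M : Alg X) (e : ℕ → X) : Term → X
  | .var i => e i
  | .zero => M.zero
  | .one => M.one
  | .bot => M.bot
  | .add s t => M.add (s.eval M e) (t.eval M e)
  | .neg s => M.neg (s.eval M e)
  | .mul s t => M.mul (s.eval M e) (t.eval M e)
  | .div s t => M.div (s.eval M e) (t.eval M e)

/-- A conditional equation `e₁ ∧ ... ∧ e_n → e` (`n ≥ 0`); an equation `s = t` is a pair
`(s, t)`. -/
structure CondEq where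
  prem : List (Term × Term)
  concl : Term × Term

/-- The conditional equation `q` is true in the `Σ`-algebra `M`. -/
def Alg.Sat {X : Type u} (M : Alg X) (q : CondEq) : Prop :=
  ∀ e : ℕ → X, (∀ p ∈ q.prem, p.1.eval M e = p.2.eval M e) →
    q.concl.1.eval M e = q.concl.2.eval M e

/-- The common meadow of a field `F`: the new element `⊥` is `none`; `x/y = x * y⁻¹` for `y ≠ 0` and
`x/0 = ⊥`; the element `⊥` is absorptive. -/
noncomputable def meadow (F : Type u) [Field F] : Alg (Option F) where
  zero := some 0
  one := some 1
  bot := none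
  add := fun x y => match x, y with
    | some a, some b => some (a + b)
    | _, _ => none
  neg := fun x => match x with
    | some a => some (-a)
    | none => none
  mul := fun x y => match x, y with
    | some a, some b => some (a * b)
    | _, _ => none
  div := fun x y => match x, y with
    | some a, some b => open Classical in if b = 0 then none else some (a * b⁻¹)
    | _, _ => none

/-- The numerals `1`, `2 = 1 + 1`, `3 = (1 + 1) + 1`, and so on. -/
def num : ℕ → Term
  | 0 => .zero
  | 1 => .one
  | n + 2 => .add (num (n + 1)) .one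

/-- The conditional equation `φ_p`: `(0/2) · (0/3) = (0/2) · (0/p) → 0/3 = 0/p`. -/
def phi (p : ℕ) : CondEq where
  prem := [(.mul (.div .zero (num 2)) (.div .zero (num 3)),
    .mul (.div .zero (num 2)) (.div .zero (num p)))]
  concl := (.div .zero (num 3), .div .zero (num p))

/-- `E` entails `q`: the conditional equation `q` is true in every `Σ`-algebra (with a carrier in
the universe `v`) in which all members of `E` are true. By the completeness of conditional
equational logic this is derivability of `q` from `E`. -/
def Entails (E : Set CondEq) (q : CondEq) : Prop :=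
  ∀ (X : Type v) (M : Alg X), (∀ a ∈ E, M.Sat a) → M.Sat q

/-- `0 · 1 = 0` -/
def ax1 : CondEq := ⟨[], (.mul .zero .one, .zero)⟩

/-- `0 · (x + 1) = 0 · x` -/
def ax2 : CondEq := ⟨[], (.mul .zero (.add (.var 0) .one), .mul .zero (.var 0))⟩

/-- `((x + x) + 1) + 1 = (x + 1) + (x + 1)` -/
def ax3 : CondEq := ⟨[], (.add (.add (.add (.var 0) (.var 0)) .one) .one,
  .add (.add (.var 0) .one) (.add (.var 0) .one))⟩

/-- `x = (u + u) + 1 ∧ 0 · u = 0 ∧ y = (v + v) + 1 ∧ 0 · v = 0 ∧ (0/2)(0/x) = (0/2)(0/y)
→ 0/x = 0/y` -/
def ax4 : CondEq where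
  prem := [(.var 0, .add (.add (.var 1) (.var 1)) .one), (.mul .zero (.var 1), .zero),
    (.var 2, .add (.add (.var 3) (.var 3)) .one), (.mul .zero (.var 3), .zero),
    (.mul (.div .zero (num 2)) (.div .zero (.var 0)),
      .mul (.div .zero (num 2)) (.div .zero (.var 2)))]
  concl := (.div .zero (.var 0), .div .zero (.var 2))

theorem sound {F : Type u} [Field F] {q : CondEq}
    (hq : q ∈ ({ax1, ax2, ax3, ax4} : Set CondEq)) : (meadow F).Sat q := by
  classical
  simp only [Set.mem_insert_iff, Set.mem_singleton_iff] at hq
  rcases hq with rfl | rfl | rfl | rfl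
  · intro e _
    simp [ax1, Term.eval, meadow]
  · intro e _
    simp only [ax2, Term.eval, meadow]
    rcases e 0 with _ | a <;> simp
  · intro e _
    simp only [ax3, Term.eval, meadow]
    rcases e 0 with _ | a
    · simp
    · simp only [Option.some.injEq]; ring
  · intro e he
    have h1 := he _ (List.mem_cons_self ..)
    have h2 := he (.mul .zero (.var 1), .zero) (by simp [ax4])
    have h3 := he (.var 2, .add (.add (.var 3) (.var 3)) .one) (by simp [ax4])
    have h4 := he (.mul .zero (.var 3), .zero) (by simp [ax4])
    have h5 := he (.mul (.div .zero (num 2)) (.div .zero (.var 0)),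
      .mul (.div .zero (num 2)) (.div .zero (.var 2))) (by simp [ax4])
    simp only [Term.eval, meadow, num, ax4] at h1 h2 h3 h4 h5 ⊢
    obtain ⟨a, ha⟩ : ∃ a, e 1 = some a := by
      cases h : e 1 with
      | none => rw [h] at h2; simp at h2
      | some a => exact ⟨a, rfl⟩
    obtain ⟨b, hb⟩ : ∃ b, e 3 = some b := by
      cases h : e 3 with
      | none => rw [h] at h4; simp at h4
      | some a => exact ⟨a, rfl⟩
    rw [ha] at h1
    rw [hb] at h3
    rw [h1, h3] at h5 ⊢
    simp only at h5 ⊢
    by_cases hc : (1 + 1 : F) = 0
    · have ha : a + a + 1 = 1 := by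
        have : a + a = (1 + 1) * a := by ring
        rw [this, hc]; ring
      have hb : b + b + 1 = 1 := by
        have : b + b = (1 + 1) * b := by ring
        rw [this, hc]; ring
      rw [ha, hb]
    · simp only [hc, if_false] at h5
      by_cases ha : a + a + 1 = 0 <;> by_cases hb : b + b + 1 = 0 <;> simp [ha, hb] at h5 ⊢

theorem num_succ {X : Type v} (M : Alg X) (e : ℕ → X) (k : ℕ) (hk : 1 ≤ k) :
    (num (k + 1)).eval M e = M.add ((num k).eval M e) M.one := by
  obtain ⟨j, rfl⟩ : ∃ j, k = j + 1 := ⟨k - 1, by omega⟩
  rfl

/-- **A finite set of conditional equations, each true in every common meadow, from which `φ_p`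
follows for every prime `p ≥ 5`.** -/
theorem result : ∃ E : Set CondEq, E.Finite ∧
    (∀ q ∈ E, ∀ (F : Type u) [Field F], (meadow F).Sat q) ∧
    ∀ p : ℕ, p.Prime → 5 ≤ p → Entails.{v} E (phi p) := by
  refine ⟨{ax1, ax2, ax3, ax4}, by simp, fun q hq F _ => sound hq, ?_⟩
  intro p hp h5 X M hM e he
  have m1 := hM ax1 (by simp)
  have m2 := hM ax2 (by simp)
  have m3 := hM ax3 (by simp)
  have m4 := hM ax4 (by simp)
  obtain ⟨k, hk⟩ : ∃ k, p = 2 * k + 1 := by
    rcases hp.eq_two_or_odd' with h | h
    · omega
    · exact h
  have hk1 : 1 ≤ k := by omega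
  -- `0 · k = 0`
  have hz : ∀ j, 1 ≤ j → M.mul M.zero ((num j).eval M e) = M.zero := by
    intro j hj
    induction j, hj using Nat.le_induction with
    | base => exact m1 e (by simp [ax1])
    | succ j hj ih =>
      rw [num_succ M e j hj]
      have := m2 (fun _ => (num j).eval M e) (by simp [ax2])
      simp only [ax2, Term.eval] at this
      rw [this, ih]
  -- `2 j = j + j`
  have hd : ∀ j, 1 ≤ j → (num (2 * j)).eval M e =
      M.add ((num j).eval M e) ((num j).eval M e) := by
    intro j hj
    induction j, hj using Nat.le_induction with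
    | base => rfl
    | succ j hj ih =>
      have h1 : 2 * (j + 1) = 2 * j + 1 + 1 := by ring
      rw [h1, num_succ M e _ (by omega), num_succ M e _ (by omega), ih, num_succ M e j hj]
      have := m3 (fun _ => (num j).eval M e) (by simp [ax3])
      simpa only [ax3, Term.eval] using this
  have hpe : (num p).eval M e =
      M.add (M.add ((num k).eval M e) ((num k).eval M e)) M.one := by
    rw [hk, num_succ M e _ (by omega), hd k hk1]
  have h4 := m4 (fun i => match i with
    | 0 => (num 3).eval M e
    | 1 => (num 1).eval M e
    | 2 => (num p).eval M e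
    | _ => (num k).eval M e) (by
      intro q hq
      simp only [ax4, List.mem_cons, List.not_mem_nil, or_false] at hq
      rcases hq with rfl | rfl | rfl | rfl | rfl
      · rfl
      · exact hz 1 le_rfl
      · exact hpe
      · exact hz k hk1
      · exact he _ (List.mem_cons_self ..))
  exact h4

end Pool.Agent.Results.MP_f888fa_lc.FiniteAxioms
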